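import Mathlib
import Pool.Agent.Lib.helper17.OrdWr2

set_option autoImplicit false

namespace Pool.Agent.Results.MP_6e5331_al.No

open FirstOrder FirstOrder.Language Pool.Agent.Lib.helper17.OrdWr

inductive GF : ℕ → Type
  | mul : GF 2
  | inv : GF 1
  | one : GF 0

/-- the language of groups -/
def LG : FirstOrder.Language.{0, 0} := { Functions := GF, Relations := fun _ => Empty }

/-- its standard interpretation in a group -/
@[reducible] def strG (G : Type) [Group G] : LG.Structure G where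
  funMap := fun {n} f =>
    match n, f with
    | _, GF.mul => fun x => x 0 * x 1
    | _, GF.inv => fun x => (x 0)⁻¹
    | _, GF.one => fun _ => 1
  RelMap := fun {_} r => Empty.elim r

/-- two-sided invariance of a relation -/
def BiInv {G : Type} [Group G] (le : G → G → Prop) : Prop :=
  ∀ a b x y : G, le a b → le (x * a * y) (x * b * y)

def Orderable (G : Type) [Group G] : Prop := ∃ s : LinearOrder G, BiInv s.le

def ProOrderable (G : Type) [Group G] : Prop :=
  ∀ r : PartialOrder G, BiInv r.le →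
    ∃ s : LinearOrder G, BiInv s.le ∧ ∀ a b, r.le a b → s.le a b

lemma not_pro {H : Type} [Group H] (h : Sig H) : ¬ ProOrderable H := by
  obtain ⟨g, x, y, ⟨a1, a2, a3⟩, ⟨b1, b2, b3⟩, hd⟩ := h
  set a := g * (x * g * x⁻¹) with ha
  set b := g * (y * g * y⁻¹) with hb
  let P : H → Prop := fun z => ∃ u v, PP g a u ∧ PP g b v ∧ z = u⁻¹ * v
  have Pm : ∀ z w, P z → P w → P (z * w) := by
    rintro _ _ ⟨u, v, h1, h2, rfl⟩ ⟨u', v', h3, h4, rfl⟩
    exact ⟨v * u' * v⁻¹ * u, v * v', a2 _ _ (a3 _ _ h3) h1, b2 _ _ h2 h4, by group⟩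
  have Pc : ∀ z w, P z → P (w * z * w⁻¹) := by
    rintro _ w ⟨u, v, h1, h2, rfl⟩
    exact ⟨_, _, a3 _ w h1, b3 _ w h2, by group⟩
  have P1 : ¬ P 1 := by
    rintro ⟨u, v, h1, h2, e⟩
    rw [eq_comm, inv_mul_eq_one] at e
    exact hd u ⟨h1, e ▸ h2⟩
  let r : PartialOrder H :=
    { le := fun p q => p = q ∨ P (p⁻¹ * q)
      le_refl := fun p => Or.inl rfl
      le_trans := by
        rintro p q s (rfl | h1) (rfl | h2)
        · exact Or.inl rfl
        · exact Or.inr h2
        · exact Or.inr h1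
        · exact Or.inr (by simpa [mul_assoc] using Pm _ _ h1 h2)
      le_antisymm := by
        rintro p q (h1 | h1) (h2 | h2)
        · exact h1
        · exact h1
        · exact h2.symm
        · exact absurd (by simpa [mul_assoc] using Pm _ _ h1 h2) P1 }
  intro hpro
  obtain ⟨s, hs1, hs2⟩ := hpro r (by
    rintro p q u v (rfl | h1)
    · exact Or.inl rfl
    · refine Or.inr ?_
      have := Pc _ v⁻¹ h1
      convert this using 1
      group)
  have hs3 : ∀ u v, P (u⁻¹ * v) → s.le u v := fun u v h => hs2 u v (Or.inr h)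
  clear hs2
  clear r
  have key : ∀ u v, PP g a u → PP g b v → u < v := by
    intro u v h1 h2
    refine lt_of_le_of_ne (hs3 u v ⟨u, v, h1, h2, rfl⟩) ?_
    rintro rfl
    exact hd u ⟨h1, h2⟩
  rcases le_total 1 g with h | h
  · have k := key _ _ (a2 _ _ a1 (a3 _ y a1)) b1
    have e1 : g * 1 * (y * g * y⁻¹) ≤ g * (x * g * x⁻¹) * (y * g * y⁻¹) :=
      hs1 _ _ _ _ (by simpa using hs1 _ _ x x⁻¹ h)
    have e2 := hs1 _ _ (g * (x * g * x⁻¹) * (y * g * x)) (x⁻¹ * y⁻¹) h
    refine absurd k (not_lt.2 ?_)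
    calc b = g * 1 * (y * g * y⁻¹) := by rw [hb]; group
      _ ≤ _ := e1
      _ = g * (x * g * x⁻¹) * (y * g * x) * 1 * (x⁻¹ * y⁻¹) := by group
      _ ≤ _ := e2
      _ = a * (y * a * y⁻¹) := by rw [ha]; group
  · have k := key _ _ a1 (b2 _ _ b1 (b3 _ x b1))
    have e1 : g * (y * g * y⁻¹) * (x * g * x⁻¹) ≤ g * 1 * (x * g * x⁻¹) :=
      hs1 _ _ _ _ (by simpa using hs1 _ _ y y⁻¹ h)
    have e2 := hs1 _ _ (g * (y * g * y⁻¹) * (x * g * y)) (y⁻¹ * x⁻¹) h
    refine absurd k (not_lt.2 ?_)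
    calc b * (x * b * x⁻¹) = g * (y * g * y⁻¹) * (x * g * y) * g * (y⁻¹ * x⁻¹) := by
          rw [hb]; group
      _ ≤ _ := e2
      _ = g * (y * g * y⁻¹) * (x * g * x⁻¹) := by group
      _ ≤ _ := e1
      _ = a := by rw [ha]; group

abbrev Tm (n : ℕ) : Type := LG.Term (Empty ⊕ Fin n)
abbrev Fm (n : ℕ) : Type := LG.BoundedFormula Empty n

abbrev gm : LG.Functions 2 := GF.mul
abbrev gi : LG.Functions 1 := GF.inv
abbrev g1 : LG.Functions 0 := GF.one

def mu {n : ℕ} (s t : Tm n) : Tm n := Term.func gm ![s, t]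
def iv {n : ℕ} (s : Tm n) : Tm n := Term.func gi ![s]
def on {n : ℕ} : Tm n := Term.func g1 ![]
def up {n : ℕ} (t : Tm n) : Tm (n + 1) := t.relabel (Sum.map id Fin.castSucc)
def lst {n : ℕ} : Tm (n + 1) := Term.var (Sum.inr (Fin.last n))

def cjF {n : ℕ} (a b : Tm n) : Fm n := ∃' (mu lst (up a) =' mu (up b) lst)
def inAF {n : ℕ} (g z : Tm n) : Fm n :=
  ∀' (cjF (up g) lst ⟹ (mu (up z) lst =' mu lst (up z)))
def ppF {n : ℕ} (g a z : Tm n) : Fm n :=
  inAF g z ⊓ (∼(z =' on) ⊓ ∀' (cjF (up g) lst ⟹ cjF (up z) (mu (up z) lst) ⟹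
    (cjF (up z) (mu (up z) (mu lst lst)) ⊓ ∃' (cjF (up (up g)) lst ⊓
      (cjF (up (up z)) (mu (up (up z)) lst) ⊓ cjF (up (up a)) (mu (up lst) lst))))))
def nsF {n : ℕ} (g a : Tm n) : Fm n :=
  ppF g a a ⊓ ((∀' ∀' (ppF (up (up g)) (up (up a)) (up lst) ⟹ ppF (up (up g)) (up (up a)) lst ⟹
    ppF (up (up g)) (up (up a)) (mu (up lst) lst))) ⊓
    ∀' ∀' (ppF (up (up g)) (up (up a)) (up lst) ⟹
      ppF (up (up g)) (up (up a)) (mu (mu lst (up lst)) (iv lst))))
def gc {n : ℕ} (g x : Tm n) : Tm n := mu g (mu (mu x g) (iv x))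
def sigF : Fm 0 :=
  ∃' ∃' ∃' (nsF (up (up lst)) (gc (up (up lst)) (up lst)) ⊓
    (nsF (up (up lst)) (gc (up (up lst)) lst) ⊓
      ∀' ∼(ppF (up (up (up lst))) (gc (up (up (up lst))) (up (up lst))) lst ⊓
        ppF (up (up (up lst))) (gc (up (up (up lst))) (up lst)) lst)))

section
variable {H : Type} [Group H]

attribute [local instance] strG

variable {n : ℕ} (v : Empty → H) (xs : Fin n → H)

@[simp] lemma r_up (t : Tm n) (a : H) :
    (up t).realize (Sum.elim v (Fin.snoc xs a : Fin (n + 1) → H)) = t.realize (Sum.elim v xs) := by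
  rw [up, Term.realize_relabel]
  congr 1
  funext i
  rcases i with i | i <;> simp

@[simp] lemma r_lst (a : H) :
    (lst : Tm (n + 1)).realize (Sum.elim v (Fin.snoc xs a : Fin (n + 1) → H)) = a := by
  simp [lst]

@[simp] lemma r_mu (s t : Tm n) (w : Empty ⊕ Fin n → H) :
    (mu s t).realize w = s.realize w * t.realize w := rfl

@[simp] lemma r_iv (s : Tm n) (w : Empty ⊕ Fin n → H) : (iv s).realize w = (s.realize w)⁻¹ := rfl

@[simp] lemma r_on (w : Empty ⊕ Fin n → H) : (on : Tm n).realize w = 1 := rfl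

@[simp] lemma r_cj (a b : Tm n) : (cjF a b).Realize v xs ↔
    Cj (a.realize (Sum.elim v xs)) (b.realize (Sum.elim v xs)) := by
  simp [cjF, Cj]

@[simp] lemma r_inA (a b : Tm n) : (inAF a b).Realize v xs ↔
    InA (a.realize (Sum.elim v xs)) (b.realize (Sum.elim v xs)) := by
  simp [inAF, InA]

@[simp] lemma r_pp (g a z : Tm n) : (ppF g a z).Realize v xs ↔
    PP (g.realize (Sum.elim v xs)) (a.realize (Sum.elim v xs)) (z.realize (Sum.elim v xs)) := by
  simp [ppF, PP]

@[simp] lemma r_ns (g a : Tm n) : (nsF g a).Realize v xs ↔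
    NS (g.realize (Sum.elim v xs)) (a.realize (Sum.elim v xs)) := by
  simp [nsF, NS]

lemma r_sig (xs : Fin 0 → H) : sigF.Realize v xs ↔ Sig H := by
  simp [sigF, Sig, gc]

end

theorem result : ∃ (G : Type) (_ : Group G), Orderable G ∧ ∃ φ : LG.Sentence,
    (∀ (H : Type) [Group H], ProOrderable H → @Sentence.Realize LG H (strG H) φ) ∧
      ¬ @Sentence.Realize LG G (strG G) φ := by
  refine ⟨W Aff QQ, inferInstance, ?_, ∼sigF, ?_, ?_⟩
  · obtain ⟨r, hr⟩ := G_order
    refine ⟨r, fun a b x y h => ?_⟩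
    rcases h.lt_or_eq with h | rfl
    · exact (hr a b x y h).le
    · exact le_rfl
  · intro H _ hH h
    exact not_pro ((r_sig _ _).1 h) hH
  · intro h
    exact h ((r_sig _ _).2 sig_G)

end Pool.Agent.Results.MP_6e5331_al.No
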